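import Pool.Agent.PSS.StmtsS4

/-!
# Row pss:DRF, the relative Frobenius system of a dual frame
-/

open scoped BigOperators TensorProduct

noncomputable section

namespace Pool.Agent.PSS.H21.DRF

open Pool.Agent.PFC (tw IsTv)
open Pool.Agent.PFD.D2b (FrR)

/-- the points of `Ω` -/
def pt {V Ω : Type} [CommGroup V] [MulAction (V × V) Ω] (p : Qt (V := V) Ω × V) : Ω :=
  ((1, p.2⁻¹) : V × V) • p.1.rep

theorem qmk_pt {V Ω : Type} [CommGroup V] [MulAction (V × V) Ω] (p : Qt (V := V) Ω × V) :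
    qmk (pt p) = p.1 := by
  refine Eq.trans ?_ p.1.mk_rep
  exact (qmk_eq.2 ⟨p.2⁻¹, rfl⟩).symm

theorem pt_bij {V Ω : Type} [CommGroup V] [MulAction (V × V) Ω]
    (hf : ∀ (v : V) (ω : Ω), ((1, v) : V × V) • ω = ω → v = 1) :
    Function.Bijective (pt : Qt (V := V) Ω × V → Ω) := by
  constructor
  · rintro ⟨k, v⟩ ⟨k', v'⟩ h
    have h1 : k = k' := by
      have := congrArg (qmk (V := V)) h
      rwa [qmk_pt, qmk_pt] at this
    subst h1
    have h2 : ((1, v⁻¹) : V × V) • k.rep = ((1, v'⁻¹) : V × V) • k.rep := h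
    have h3 : ((1, v' * v⁻¹) : V × V) • k.rep = k.rep := by
      have e : ((1, v' * v⁻¹) : V × V) = (1, v') * (1, v⁻¹) := by
        rw [Prod.mk_mul_mk, one_mul]
      rw [e, ← smul_smul, h2, smul_smul, Prod.mk_mul_mk, one_mul, mul_inv_cancel]
      exact one_smul (V × V) _
    have h4 := hf _ _ h3
    rw [mul_inv_eq_one] at h4
    rw [h4]
  · intro ω
    obtain ⟨v, hv⟩ := qmk_eq.1 (Qt.mk_rep (qmk ω : Qt (V := V) Ω))
    refine ⟨(qmk ω, v⁻¹), ?_⟩
    show ((1, (v⁻¹)⁻¹) : V × V) • (qmk ω : Qt (V := V) Ω).rep = ω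
    rw [inv_inv]
    exact hv

theorem drf : DrfStmt := by
  intro R V A Ω _ _ _ _ _ _ _ α lam b d h
  have hb : ∀ (k : Qt (V := V) Ω) (v : V), b (pt (k, v)) = b k.rep * α v := by
    intro k v
    show b (((1, v⁻¹) : V × V) • k.rep) = _
    rw [h.eb, map_one, one_mul, inv_inv]
  have hd : ∀ (k : Qt (V := V) Ω) (v : V), d (pt (k, v)) = α v⁻¹ * d k.rep := by
    intro k v
    show d (((1, v⁻¹) : V × V) • k.rep) = _
    rw [h.ed, inv_one, map_one, mul_one]
  have hsum : ∀ g : Ω → A, ∑ k : Qt (V := V) Ω, ∑ v : V, g (pt (k, v)) = ∑ ω, g ω := by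
    intro g
    rw [← Fintype.sum_prod_type' (f := fun (k : Qt (V := V) Ω) (v : V) => g (pt (k, v)))]
    exact Equiv.sum_comp (Equiv.ofBijective _ (pt_bij h.fr)) g
  refine ⟨h.sym, fun a => ?_, fun a => ?_⟩
  · have h1 := hsum (fun ω => lam (d ω * a) • b ω)
    simp only [hb, hd] at h1
    rw [h1]
    exact h.sum a
  · have h1 := hsum (fun ω => lam (a * b ω) • d ω)
    simp only [hb, hd] at h1
    rw [h1]
    have hz : ∀ z : A, (∀ a', lam (z * a') = 0) → z = 0 := by
      intro z hz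
      rw [← h.sum z]
      refine Finset.sum_eq_zero fun ω _ => ?_
      rw [h.sym, hz, zero_smul]
    refine sub_eq_zero.1 (hz _ fun a' => ?_)
    rw [sub_mul, map_sub, Finset.sum_mul, map_sum]
    have h2 : lam (a * a') = ∑ ω, lam (a * b ω) * lam (d ω * a') := by
      conv_lhs => rw [← h.sum a']
      rw [Finset.mul_sum, map_sum]
      refine Finset.sum_congr rfl fun ω _ => ?_
      rw [mul_smul_comm, map_smul, smul_eq_mul, mul_comm]
    rw [h2, ← Finset.sum_sub_distrib]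
    refine Finset.sum_eq_zero fun ω _ => ?_
    rw [smul_mul_assoc, map_smul, smul_eq_mul, sub_self]

end Pool.Agent.PSS.H21.DRF
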