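import Pool.Agent.PSS.StmtsS0
import Pool.Agent.PFC.B4.Key

/-!
# Row pss:LMB, the form of the Brauer quotient
-/

open scoped BigOperators TensorProduct

noncomputable section

namespace Pool.Agent.PSS.H21.LMB

open Pool.Agent.PFC (tw IsTv card_tv)
open Pool.Agent.PSS.S0

theorem tv_zero (ℓ : ℕ) [Fact ℓ.Prime] {R V : Type} [CommRing R] (hR : (ℓ : R) = 0) [Group V]
    [Finite V] {K Q : Subgroup V} (hQ : IsPGroup ℓ Q) (hlt : K < Q) {S : Finset V}
    (hS : IsTv K Q S) : (S.card : R) = 0 := by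
  have hc := card_tv K Q hlt.le S hS
  obtain ⟨k, hk⟩ := (IsPGroup.iff_card).1 hQ
  have hdiv : S.card ∣ ℓ ^ k := ⟨_, by rw [← hk]; exact hc.symm⟩
  obtain ⟨j, -, hj⟩ := (Nat.dvd_prime_pow (Fact.out : ℓ.Prime)).1 hdiv
  rcases Nat.eq_zero_or_pos j with h0 | h0
  · exfalso
    rw [h0, pow_zero] at hj
    rw [hj, one_mul] at hc
    exact hlt.ne (Subgroup.eq_of_le_of_card_ge hlt.le hc.ge)
  · rw [hj, Nat.cast_pow, hR, zero_pow h0.ne']

theorem lam_cw {R V A : Type} [CommRing R] [CommGroup V] [Ring A] [Algebra R A] (α : V →* A)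
    (lam : A →ₗ[R] R) (hs : ∀ x y, lam (x * y) = lam (y * x)) (u : V) (m : A) :
    lam (cw R α u m) = lam m := by
  show lam (α u * (m * α u⁻¹)) = lam m
  rw [hs, mul_assoc, ← map_mul, inv_mul_cancel, map_one, mul_one]

theorem lmb : LmbStmt := by
  intro ℓ _ R V A B _ _ _ _ _ _ _ α Q αB β lam hR hV hs h
  have hker : ∀ n ∈ BKR (cw R α) Q, lam n = 0 := by
    intro n hn
    unfold BKR at hn
    induction hn using Submodule.span_induction with
    | mem n hn =>
        obtain ⟨P', S, m, hlt, hS, -, rfl⟩ := hn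
        rw [map_sum, Finset.sum_congr rfl fun x _ => lam_cw α lam hs x m, Finset.sum_const,
          nsmul_eq_mul, tv_zero ℓ hR (hV.to_subgroup Q) hlt hS, zero_mul]
    | zero => exact map_zero _
    | add a b _ _ ha hb => rw [map_add, ha, hb, add_zero]
    | smul c a _ ha => rw [map_smul, ha, smul_zero]
  have hβn : ∀ a ∈ FxR (cw R α) Q, β (-a) = - β a := by
    intro a ha
    have h1 := h.smul (-1) a ha
    rwa [neg_smul, one_smul, neg_smul, one_smul] at h1
  have key : ∀ a ∈ FxR (cw R α) Q, ∀ b ∈ FxR (cw R α) Q, β a = β b → lam a = lam b := by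
    intro a ha b hb hab
    have hnb : -b ∈ FxR (cw R α) Q := Submodule.neg_mem _ hb
    have h1 : β (a + -b) = 0 := by
      rw [h.add a ha _ hnb, hβn b hb, hab, add_neg_cancel]
    have h2 := hker _ ((h.ker _ (Submodule.add_mem _ ha hnb)).1 h1)
    rw [map_add, map_neg] at h2
    exact eq_of_sub_eq_zero (by rw [sub_eq_add_neg]; exact h2)
  choose r hr hrβ using h.surj
  refine ⟨{
    toFun := fun y => lam (r y)
    map_add' := fun y z => by
      rw [← map_add]
      refine key _ (hr _) _ (Submodule.add_mem _ (hr y) (hr z)) ?_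
      rw [hrβ, h.add _ (hr y) _ (hr z), hrβ, hrβ]
    map_smul' := fun c y => by
      rw [RingHom.id_apply, ← map_smul]
      refine key _ (hr _) _ (Submodule.smul_mem _ c (hr y)) ?_
      rw [hrβ, h.smul c _ (hr y), hrβ] }, fun a ha => ?_⟩
  exact key _ (hr _) _ ha (hrβ _)

end Pool.Agent.PSS.H21.LMB
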