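import Pool.Agent.PSS.StmtsS1c

/-!
# Row pss:DLC, the coboundary of the coefficient `m (N + 1)`
-/

open scoped BigOperators TensorProduct

noncomputable section

namespace Pool.Agent.PSS.H21

open Finset

theorem not_filter (N : ℕ) : (antidiagonal (N + 1)).filter (fun p => ¬ (p.1 ≠ 0 ∧ p.2 ≠ 0)) =
    {((0 : ℕ), N + 1), (N + 1, 0)} := by
  ext ⟨a, b⟩
  simp only [mem_filter, HasAntidiagonal.mem_antidiagonal, mem_insert, mem_singleton, Prod.mk.injEq]
  omega

theorem dlc (hT : TraStmt) : DlcStmt := by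
  intro K V B _ _ _ _ β W P m N h x y z
  obtain ⟨⟨D, hD⟩, -, -⟩ := hT K V B β W P m h
  subst hD
  have h1 := D.ass (N + 1) x y z
  rw [← sub_eq_zero, ← Finset.sum_sub_distrib] at h1
  rw [← Finset.sum_filter_add_sum_filter_not (antidiagonal (N + 1))
    (fun p => p.1 ≠ 0 ∧ p.2 ≠ 0), not_filter, Finset.sum_pair (by simp)] at h1
  simp only [D.m0] at h1
  rw [eq_neg_of_add_eq_zero_left h1]
  unfold dl
  abel

end Pool.Agent.PSS.H21
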