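import Pool.Agent.PSS.StmtsG
import Pool.Agent.Helper41_PFD.SPJ

/-!
# Row pss:QRJ

The inertial quotient of a conjugate subgroup.
-/

open scoped BigOperators

noncomputable section

namespace Pool.Agent.PSS.H21

open Pool.Agent.Helper51_AWC Pool.Agent.Helper79_WRA Pool.Agent.PP Pool.Agent.PP.KF
open Pool.Agent.PP.K9 Pool.Agent.PP.K9.H97 Pool.Agent.PP.H75 Pool.Agent.PP.T3 Pool.Agent.PP.T2
open Pool.Agent.PP.TB (Zd Star iz cz)
open Pool.Agent.PFD (Ei)
open Pool.Agent.PFD.H41 (tg_conjS mem_norm_conjS)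

theorem qrj : QrjStmt := by
  intro F G _ V γ g
  refine ⟨conjSEquiv g V, fun v => conjSEquiv_coe g V v, ?_, ?_⟩
  · exact (conjSEquiv g V).surjective
  · intro a' ha'
    rw [Ei, Subgroup.mem_map] at ha'
    obtain ⟨t', ht', rfl⟩ := ha'
    rw [Subgroup.mem_subgroupOf, tg_conjS, Pool.Agent.PFD.H41.mem_conjS] at ht'
    have hn : g⁻¹ * (t' : G) * g ∈ Subgroup.normalizer (V : Set G) :=
      (mem_norm_conjS (t' : G)).1 t'.2
    refine ⟨V.normalizerMonoidHom ⟨g⁻¹ * (t' : G) * g, hn⟩, ?_, ?_⟩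
    · rw [Ei, Subgroup.mem_map]
      exact ⟨⟨g⁻¹ * (t' : G) * g, hn⟩, ht', rfl⟩
    · intro v
      apply Subtype.ext
      have e1 : ((((conjSEquiv g V).toMonoidHom
          (V.normalizerMonoidHom ⟨g⁻¹ * (t' : G) * g, hn⟩ v)) : conjS g V) : G)
          = g * ((g⁻¹ * (t' : G) * g) * (v : G) * (g⁻¹ * (t' : G) * g)⁻¹) * g⁻¹ := rfl
      have e2 : ((((conjS g V).normalizerMonoidHom t'
          ((conjSEquiv g V).toMonoidHom v)) : conjS g V) : G)
          = (t' : G) * (g * (v : G) * g⁻¹) * (t' : G)⁻¹ := rfl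
      rw [e1, e2]
      group

end Pool.Agent.PSS.H21
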