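import Pool.Agent.PSS.StmtsBR

/-!
# Row pss:RTV, the property of theorem (R) is invariant under isomorphisms
-/

namespace Pool.Agent.PSS.BR.H21

open Pool.Agent.PSS.S5

theorem rtv : RtvStmt := by
  intro V U E _ _ _ φ ψ W s h hP
  obtain ⟨hp, U0, hc, hne, hW, hU, hT⟩ := hP
  have hs : ∀ (Y : Subgroup V) (u : U), u ∈ Y.comap s.toMonoidHom ↔ s u ∈ Y := fun Y u => Iff.rfl
  refine ⟨?_, U0.comap s.toMonoidHom, ⟨?_, ?_⟩, ?_, ?_, ?_, ?_⟩
  · have e : Nat.card (W.comap s.toMonoidHom) = Nat.card W :=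
      Nat.card_congr (s.toEquiv.subtypeEquiv (fun u => hs W u))
    rw [e]
    exact hp
  · rw [Subgroup.disjoint_def]
    intro x hx hx'
    have h1 := Subgroup.disjoint_def.1 hc.1 ((hs W x).1 hx) ((hs U0 x).1 hx')
    exact s.injective (by rw [h1, map_one])
  · rw [codisjoint_iff, eq_top_iff]
    intro x _
    have h1 : s x ∈ W ⊔ U0 := by
      rw [codisjoint_iff.1 hc.2]
      trivial
    obtain ⟨w, hw, u, hu, hwu⟩ := Subgroup.mem_sup.1 h1
    refine Subgroup.mem_sup.2 ⟨s.symm w, ?_, s.symm u, ?_, ?_⟩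
    · rw [hs, s.apply_symm_apply]
      exact hw
    · rw [hs, s.apply_symm_apply]
      exact hu
    · rw [← map_mul, hwu, s.symm_apply_apply]
  · intro h0
    apply hne
    rw [eq_bot_iff]
    intro v hv
    have h1 : s.symm v ∈ U0.comap s.toMonoidHom := by
      rw [hs, s.apply_symm_apply]
      exact hv
    rw [h0, Subgroup.mem_bot] at h1
    rw [Subgroup.mem_bot]
    have h2 := congrArg s h1
    rwa [s.apply_symm_apply, map_one] at h2
  · intro e w hw
    rw [hs] at hw ⊢
    rw [h]
    exact hW e _ hw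
  · intro e u hu
    rw [hs] at hu ⊢
    rw [h]
    exact hU e _ hu
  · intro e hw u hu hu1 hfix
    have h1 : φ e = 1 := by
      refine hT e (fun w hwW => ?_) (s u) ((hs U0 u).1 hu) ?_ ?_
      · have h2 := hw (s.symm w) (by rw [hs, s.apply_symm_apply]; exact hwW)
        have h3 := h e (s.symm w)
        rw [h2, s.apply_symm_apply] at h3
        exact h3.symm
      · intro h2
        exact hu1 (s.injective (by rw [h2, map_one]))
      · rw [← h, hfix]
    ext x
    have h2 := h e x
    rw [h1] at h2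
    exact s.injective h2

end Pool.Agent.PSS.BR.H21
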