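import Pool.Agent.PSS.StmtsS2

/-!
# Row pss:TPR, the trace property modulo `q`
-/

open scoped BigOperators

noncomputable section

namespace Pool.Agent.PSS.S2.H21

open Pool.Agent.PSS

section cg

variable {R M : Type} [CommRing R] [AddCommGroup M] [Module R M] {q : R}

theorem cg_refl (a : M) : Cg q a a := ⟨0, by rw [sub_self, smul_zero]⟩

theorem cg_symm {a b : M} (h : Cg q a b) : Cg q b a := by
  obtain ⟨d, hd⟩ := h
  refine ⟨-d, ?_⟩
  rw [smul_neg, ← hd, neg_sub]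

theorem cg_trans {a b c : M} (h : Cg q a b) (h' : Cg q b c) : Cg q a c := by
  obtain ⟨d, hd⟩ := h
  obtain ⟨d', hd'⟩ := h'
  refine ⟨d + d', ?_⟩
  rw [smul_add, ← hd, ← hd']
  abel

theorem cg_sum {ι : Type} (s : Finset ι) (f g : ι → M) (h : ∀ i, Cg q (f i) (g i)) :
    Cg q (∑ i ∈ s, f i) (∑ i ∈ s, g i) := by
  choose d hd using h
  refine ⟨∑ i ∈ s, d i, ?_⟩
  rw [Finset.smul_sum, ← Finset.sum_sub_distrib]
  exact Finset.sum_congr rfl fun i _ => hd i

end cg

/-- the double sum -/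
def Sd {R V A K : Type} [CommRing R] [CommGroup V] [Fintype V] [Ring A] [Algebra R A] [Fintype K]
    (α : V →* A) (lam : A →ₗ[R] R) (x y : K → A) (f g : A →ₗ[R] A) : R :=
  ∑ k, ∑ j, ∑ v, lam (α v⁻¹ * y j * g (x k)) * lam (α v * y k * f (x j))

theorem t1_comp {R V A K : Type} [CommRing R] [CommGroup V] [Fintype V] [Ring A] [Algebra R A]
    [Fintype K] (q : R) (α : V →* A) (lam : A →ₗ[R] R) (x y : K → A) (f g : A →ₗ[R] A)
    (h : RF R α lam x y) (hf : RLq q α f) :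
    Cg q (t1 lam x y (f ∘ₗ g)) (Sd α lam x y f g) := by
  unfold t1 Sd
  refine cg_sum _ _ _ fun k => ?_
  have e1 : lam (y k * (f ∘ₗ g) (x k)) =
      ∑ j, ∑ v, lam (α v⁻¹ * y j * g (x k)) * lam (y k * f (x j * α v)) := by
    rw [LinearMap.comp_apply]
    conv_lhs => rw [← h.e1 (g (x k))]
    simp only [map_sum, map_smul, Finset.mul_sum, mul_smul_comm, smul_eq_mul]
  rw [e1]
  refine cg_sum _ _ _ fun j => cg_sum _ _ _ fun v => ?_
  obtain ⟨d, hd⟩ := hf (x j) v
  refine ⟨lam (α v⁻¹ * y j * g (x k)) * lam (y k * d), ?_⟩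
  have e2 : lam (α v * y k * f (x j)) = lam (y k * (f (x j) * α v)) := by
    rw [mul_assoc, h.sym, mul_assoc]
  rw [e2, ← mul_sub, ← map_sub, ← mul_sub, hd, mul_smul_comm, map_smul, smul_eq_mul, smul_eq_mul]
  ring

theorem sd_symm {R V A K : Type} [CommRing R] [CommGroup V] [Fintype V] [Ring A] [Algebra R A]
    [Fintype K] (α : V →* A) (lam : A →ₗ[R] R) (x y : K → A) (f g : A →ₗ[R] A) :
    Sd α lam x y f g = Sd α lam x y g f := by
  unfold Sd
  rw [Finset.sum_comm]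
  refine Finset.sum_congr rfl fun k _ => Finset.sum_congr rfl fun j _ => ?_
  rw [← Equiv.sum_comp (Equiv.inv V)]
  refine Finset.sum_congr rfl fun v _ => ?_
  rw [Equiv.inv_apply, inv_inv, mul_comm]

theorem tpr : TprStmt := by
  intro R V A K _ _ _ _ _ _ q α lam x y f g h hf hg
  refine cg_trans (t1_comp q α lam x y f g h hf) ?_
  rw [sd_symm]
  exact cg_symm (t1_comp q α lam x y g f h hg)

end Pool.Agent.PSS.S2.H21
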